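import Pool.Agent.Run7.h105.PC.Defs

/-! PC (helper105), piece UPK: configurations in `K`. -/

set_option autoImplicit false

open Set
open scoped ENNReal

namespace Run7.h859.PC

open Pool.Agent.Run7.h105.PC

theorem mem_cells {K : Set ℝ} {n j : ℕ} : j ∈ cells K n ↔
    j < n + 1 ∧ ∃ x ∈ K, (j : ℝ) / n ≤ x ∧ x < ((j : ℝ) + 1) / n := by
  classical
  simp only [cells, Finset.mem_filter, Finset.mem_range]

/-- the cell of a point -/
theorem cell_of {K : Set ℝ} (hK : K ⊆ Icc 0 1) {n : ℕ} (hn : 1 ≤ n) {y : ℝ} (hy : y ∈ K) :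
    ∃ j : ℕ, j ∈ cells K n ∧ (j : ℝ) / n ≤ y ∧ y < ((j : ℝ) + 1) / n := by
  have hn0 : (0 : ℝ) < n := by exact_mod_cast hn
  obtain ⟨h0, h1⟩ := hK hy
  have h2 : 0 ≤ n * y := by positivity
  have h3 : ((⌊n * y⌋₊ : ℕ) : ℝ) / n ≤ y := by
    rw [div_le_iff₀ hn0, mul_comm y]
    exact Nat.floor_le h2
  have h4 : y < (((⌊n * y⌋₊ : ℕ) : ℝ) + 1) / n := by
    rw [lt_div_iff₀ hn0, mul_comm y]
    exact Nat.lt_floor_add_one _
  refine ⟨⌊n * y⌋₊, mem_cells.2 ⟨?_, y, hy, h3, h4⟩, h3, h4⟩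
  have h5 : ((⌊n * y⌋₊ : ℕ) : ℝ) ≤ n := by
    refine (Nat.floor_le h2).trans ?_
    nlinarith
  have h6 : ⌊n * y⌋₊ ≤ n := by exact_mod_cast h5
  omega

theorem U_sum (s : ℝ) {ι : Type} (S : Finset ι) (X : ι → Multiset ℝ) (y : ℝ) :
    U s (∑ i ∈ S, X i) y = ∑ i ∈ S, U s (X i) y := by
  classical
  induction S using Finset.induction_on with
  | empty => simp [U]
  | insert a S ha ih => rw [Finset.sum_insert ha, Finset.sum_insert ha, U_add, ih]

theorem one_cell (hSC : S_SC) (hPERT : S_PERT) (hG1 : S_G1) (s : ℝ) (hs : 0 < s) (K : Set ℝ)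
    (hK : K ⊆ Icc 0 1) (m r k : ℕ) (hm : 1 ≤ m) (hr : 1 ≤ r) (hk : 1 ≤ k) (i : ℕ) :
    ∃ X : Multiset ℝ, (∀ x ∈ X, x ∈ K) ∧
      (i ∈ cells K k → ∀ y ∈ K, (i : ℝ) / k ≤ y → y < ((i : ℝ) + 1) / k →
        (ENNReal.ofReal ((1 + 1 / (r : ℝ)) * (1 / ((m : ℝ) * k)))) ^ (-s) ≤ U s X y) ∧
      X.card ≤ G s m + (if i ∈ bad K k (m * r ^ 2) then m * r ^ 2 else 0) := by
  classical
  have hm0 : (0 : ℝ) < m := by exact_mod_cast hm
  have hr0 : (0 : ℝ) < r := by exact_mod_cast hr
  have hk0 : (0 : ℝ) < k := by exact_mod_cast hk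
  have hr1 : (1 : ℝ) ≤ r := by exact_mod_cast hr
  obtain ⟨p, hp⟩ : ∃ p : ℕ, p = m * r ^ 2 := ⟨_, rfl⟩
  have hp1 : 1 ≤ p := by rw [hp]; exact Nat.mul_pos hm (pow_pos hr 2)
  have hp0 : (0 : ℝ) < p := by exact_mod_cast hp1
  have hpr : (p : ℝ) = m * r ^ 2 := by rw [hp]; push_cast; ring
  rw [← hp]
  have hN : ((k * p : ℕ) : ℝ) = k * p := by push_cast; ring
  have hN0 : (0 : ℝ) < k * p := by positivity
  have hδ : (0 : ℝ) < 1 / ((m : ℝ) * k) := by positivity
  have hθδ : (1 / (r : ℝ)) ^ 2 * (1 / ((m : ℝ) * k)) = 1 / (k * p) := by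
    rw [hpr]
    field_simp
  by_cases hi : i ∈ cells K k
  swap
  · exact ⟨0, fun x hx => by simp at hx, fun h => absurd h hi, by simp⟩
  by_cases hb : i ∈ bad K k p
  · -- bad cells
    have hw : ∀ j : ℕ, ∃ w : ℝ, j ∈ cells K (k * p) →
        w ∈ K ∧ (j : ℝ) / (k * p) ≤ w ∧ w < ((j : ℝ) + 1) / (k * p) := by
      intro j
      by_cases hj : j ∈ cells K (k * p)
      · obtain ⟨-, x, hx, h1, h2⟩ := mem_cells.1 hj
        rw [hN] at h1 h2
        exact ⟨x, fun _ => ⟨hx, h1, h2⟩⟩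
      · exact ⟨0, fun h => absurd h hj⟩
    choose w hw using hw
    refine ⟨((Finset.Ico (i * p) ((i + 1) * p)).filter (fun j => j ∈ cells K (k * p))).val.map w,
      ?_, ?_, ?_⟩
    · intro x hx
      obtain ⟨j, hj, rfl⟩ := Multiset.mem_map.1 hx
      rw [Finset.mem_val] at hj
      exact (hw j (Finset.mem_filter.1 hj).2).1
    · intro _ y hy hy1 hy2
      obtain ⟨j, hj, hj1, hj2⟩ := cell_of hK (n := k * p) (Nat.mul_pos hk hp1) hy
      rw [hN] at hj1 hj2
      obtain ⟨hw1, hw2, hw3⟩ := hw j hj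
      have h1 : i * p ≤ j := by
        by_contra hcon
        have h2 : j + 1 ≤ i * p := by omega
        have h3 : ((j : ℝ) + 1) ≤ i * p := by exact_mod_cast h2
        have h4 : ((j : ℝ) + 1) / (k * p) ≤ i / k := by
          rw [div_le_div_iff₀ hN0 hk0]
          nlinarith
        linarith
      have h1' : j < (i + 1) * p := by
        by_contra hcon
        have h2 : (i + 1) * p ≤ j := by omega
        have h3 : ((i : ℝ) + 1) * p ≤ j := by exact_mod_cast h2
        have h4 : ((i : ℝ) + 1) / k ≤ j / (k * p) := by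
          rw [div_le_div_iff₀ hk0 hN0]
          nlinarith
        linarith
      refine le_U_of_mem hs (x := w j) (Multiset.mem_map_of_mem _ ?_) ?_
      · rw [Finset.mem_val, Finset.mem_filter, Finset.mem_Ico]
        exact ⟨⟨h1, h1'⟩, hj⟩
      · have h5 : |y - w j| ≤ 1 / (k * p) := by
          have e : ((j : ℝ) + 1) / (k * p) = j / (k * p) + 1 / (k * p) := by ring
          rw [abs_le]
          constructor <;> linarith
        refine h5.trans ?_
        rw [← hθδ]
        apply mul_le_mul_of_nonneg_right _ hδ.le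
        have h6 : (1 / (r : ℝ)) ≤ 1 := by
          rw [div_le_one hr0]; exact hr1
        have h7 : 0 < 1 / (r : ℝ) := by positivity
        nlinarith
    · rw [Multiset.card_map, Finset.card_val, if_pos hb]
      refine (Finset.card_filter_le _ _).trans ?_
      rw [Nat.card_Ico]
      have : (i + 1) * p - i * p = p := by
        rw [add_mul, one_mul, Nat.add_sub_cancel_left]
      omega
  · -- good cells
    obtain ⟨C, hC, hC1, hC2⟩ := hG1 s hs m
    have hgood : ∀ j, i * p ≤ j → j < (i + 1) * p → j ∈ cells K (k * p) := by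
      intro j h1 h2
      by_contra hj
      apply hb
      unfold bad
      rw [Finset.mem_filter]
      exact ⟨hi, j, h1, h2, hj⟩
    have hz : ∀ x : ℝ, ∃ z : ℝ, x ∈ Icc 0 (m : ℝ) → z ∈ K ∧
        |z - ((i : ℝ) / k + 1 / ((m : ℝ) * k) * x)| ≤ 1 / (k * p) := by
      intro x
      by_cases hx : x ∈ Icc 0 (m : ℝ)
      swap
      · exact ⟨0, fun h => absurd h hx⟩
      obtain ⟨hx0, hx1⟩ := hx
      have ht0 : 0 ≤ (r : ℝ) ^ 2 * x := by positivity
      have ht1 : (r : ℝ) ^ 2 * x ≤ p := by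
        rw [hpr]
        nlinarith [pow_pos hr0 2]
      obtain ⟨l, hl⟩ : ∃ l, l = min ⌊(r : ℝ) ^ 2 * x⌋₊ (p - 1) := ⟨_, rfl⟩
      have hlp : l < p := by omega
      have hl1 : (l : ℝ) ≤ (r : ℝ) ^ 2 * x := by
        refine le_trans ?_ (Nat.floor_le ht0)
        have : l ≤ ⌊(r : ℝ) ^ 2 * x⌋₊ := by omega
        exact_mod_cast this
      have hl2 : (r : ℝ) ^ 2 * x ≤ l + 1 := by
        rcases le_total ⌊(r : ℝ) ^ 2 * x⌋₊ (p - 1) with h | h
        · have : l = ⌊(r : ℝ) ^ 2 * x⌋₊ := by omega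
          rw [this]
          exact (Nat.lt_floor_add_one _).le
        · have h2 : l + 1 = p := by omega
          have h3 : (l : ℝ) + 1 = p := by exact_mod_cast h2
          rw [h3]
          exact ht1
      have hj := hgood (i * p + l) (by omega) (by rw [add_mul, one_mul]; omega)
      obtain ⟨-, z, hzK, hz1, hz2⟩ := mem_cells.1 hj
      rw [hN] at hz1 hz2
      refine ⟨z, fun _ => ⟨hzK, ?_⟩⟩
      have hq : ((i : ℝ) / k + 1 / ((m : ℝ) * k) * x) = (i * p + r ^ 2 * x) / (k * p) := by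
        rw [hpr]
        field_simp
      rw [hq]
      push_cast at hz1 hz2
      have e1 : ((i : ℝ) * p + l) / (k * p) ≤ (i * p + r ^ 2 * x) / (k * p) := by
        apply div_le_div_of_nonneg_right _ hN0.le
        linarith
      have e2 : (i * p + r ^ 2 * x) / (k * p) ≤ ((i : ℝ) * p + l + 1) / (k * p) := by
        apply div_le_div_of_nonneg_right _ hN0.le
        linarith
      have e3 : ((i : ℝ) * p + l + 1) / (k * p) = ((i : ℝ) * p + l) / (k * p) + 1 / (k * p) := by
        ring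
      rw [abs_le]
      constructor <;> linarith
    choose z hz using hz
    refine ⟨C.map z, ?_, ?_, ?_⟩
    · intro x hx
      obtain ⟨c, hc, rfl⟩ := Multiset.mem_map.1 hx
      exact (hz c (hC1 c hc)).1
    · intro _ y _ hy1 hy2
      have h1 := hSC s ((i : ℝ) / k) (1 / ((m : ℝ) * k)) 1 hs hδ one_pos (Icc 0 (m : ℝ)) C hC2 y (by
        constructor
        · apply div_nonneg _ hδ.le
          linarith
        · rw [div_le_iff₀ hδ]
          have e : (m : ℝ) * (1 / ((m : ℝ) * k)) = 1 / k := by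
            field_simp
          rw [e]
          have e' : ((i : ℝ) + 1) / k = i / k + 1 / k := by ring
          linarith)
      unfold U at h1 ⊢
      rw [Multiset.map_map] at h1 ⊢
      have h2 := hPERT s (1 / (r : ℝ)) (1 / ((m : ℝ) * k)) hs (by positivity)
        (by rw [div_le_one hr0]; exact hr1) hδ C
        (fun x => |y - ((i : ℝ) / k + 1 / ((m : ℝ) * k) * x)|) (fun x => |y - z x|)
        (fun x _ => abs_nonneg _) (fun x hx => by
          have h3 := (hz x (hC1 x hx)).2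
          rw [hθδ]
          have h4 := abs_sub_le y ((i : ℝ) / k + 1 / ((m : ℝ) * k) * x) (z x)
          rw [abs_sub_comm ((i : ℝ) / k + 1 / ((m : ℝ) * k) * x) (z x)] at h4
          linarith)
        (by
          rw [mul_one] at h1
          exact h1)
      exact h2
    · rw [Multiset.card_map, hC]
      exact Nat.le_add_right _ _

theorem t_UPK : S_SC → S_PERT → S_G1 → S_UPK := by
  classical
  intro hSC hPERT hG1 s hs K hK m r k hm hr hk
  choose X hX1 hX2 hX3 using one_cell hSC hPERT hG1 s hs K hK m r k hm hr hk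
  refine ⟨∑ i ∈ cells K k, X i, ?_, ?_, ?_⟩
  · intro x hx
    obtain ⟨i, -, hi⟩ := Multiset.mem_sum.1 hx
    exact hX1 i x hi
  · intro y hy
    obtain ⟨i, hi, h1, h2⟩ := cell_of hK hk hy
    rw [U_sum]
    refine (hX2 i hi y hy h1 h2).trans ?_
    exact Finset.single_le_sum (f := fun i => U s (X i) y) (fun _ _ => bot_le) hi
  · rw [Multiset.card_sum]
    refine (Finset.sum_le_sum fun i _ => hX3 i).trans ?_
    rw [Finset.sum_add_distrib, Finset.sum_const, smul_eq_mul, Finset.sum_ite_mem,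
      Finset.sum_const, smul_eq_mul]
    have h1 : cells K k ∩ bad K k (m * r ^ 2) = bad K k (m * r ^ 2) := by
      apply Finset.inter_eq_right.2
      exact Finset.filter_subset _ _
    rw [h1, mul_comm (cells K k).card, mul_comm (bad K k (m * r ^ 2)).card]

end Run7.h859.PC
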